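import Pool.Agent.Helper5.ET.Defs

/-! # T4': the moduli `Nj` -/

set_option autoImplicit false

namespace Pool.Agent.Helper66.T4

open Finset Pool.Agent.Helper5.ET Pool.Agent.Helper27.T4

theorem cnt_succ (f : Fin 3) (j : ℕ) :
    cnt f (j + 1) = cnt f j + if own j = f then 1 else 0 := by
  unfold cnt
  rw [Finset.range_add_one, Finset.filter_insert]
  split_ifs with h
  · rw [Finset.card_insert_of_notMem (by simp)]
  · rfl

theorem Nj_succ (j : ℕ) : Nj (j + 1) = Nj j * pr (own j) := by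
  unfold Nj NN av
  have h : ∀ f : Fin 3, pr f ^ cnt f (j + 1) = pr f ^ cnt f j * (if own j = f then pr f else 1) := by
    intro f
    rw [cnt_succ]
    split_ifs with h
    · rw [pow_succ]
    · simp
  rw [Finset.prod_congr rfl (fun f _ => h f), Finset.prod_mul_distrib]
  congr 1
  rw [Finset.prod_ite_eq]
  simp

theorem Nj_pos (j : ℕ) : 0 < Nj j := NN_pos pr_prime _

theorem pr_ge (f : Fin 3) : 1000003 ≤ pr f := by
  fin_cases f <;> simp [pr]

theorem pr_le (f : Fin 3) : pr f ≤ 1000037 := by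
  fin_cases f <;> simp [pr]

theorem Nj_succ_ge (j : ℕ) : 1000003 * Nj j ≤ Nj (j + 1) := by
  rw [Nj_succ, mul_comm]
  exact Nat.mul_le_mul_left _ (pr_ge _)

theorem Nj_succ_le (j : ℕ) : Nj (j + 1) ≤ 1000037 * Nj j := by
  rw [Nj_succ, mul_comm]
  exact Nat.mul_le_mul_right _ (pr_le _)

theorem Nj_strictMono : StrictMono Nj := by
  apply strictMono_nat_of_lt_succ
  intro j
  have h1 := Nj_succ_ge j
  have h2 := Nj_pos j
  omega

theorem Nj_mono {y z : ℕ} (h : y ≤ z) : Nj y ≤ Nj z := Nj_strictMono.monotone h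

theorem Nj_dvd {y z : ℕ} (h : y ≤ z) : Nj y ∣ Nj z := by
  induction z, h using Nat.le_induction with
  | base => exact dvd_rfl
  | succ z _ ih => rw [Nj_succ]; exact Dvd.dvd.mul_right ih _

theorem Nj_zero : Nj 0 = 1 := by
  simp [Nj, NN, av, cnt]

theorem two_pow_le_Nj (j : ℕ) : 2 ^ j ≤ Nj j := by
  induction j with
  | zero => simp [Nj_zero]
  | succ j ih =>
    have h1 := Nj_succ_ge j
    rw [pow_succ]
    omega

theorem Nj_ge_pow {y z : ℕ} (h : y ≤ z) : 1000003 ^ (z - y) * Nj y ≤ Nj z := by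
  induction z, h using Nat.le_induction with
  | base => simp
  | succ z hz ih =>
    have h1 := Nj_succ_ge z
    have e : z + 1 - y = (z - y) + 1 := by omega
    rw [e, pow_succ]
    calc 1000003 ^ (z - y) * 1000003 * Nj y = 1000003 * (1000003 ^ (z - y) * Nj y) := by ring
      _ ≤ 1000003 * Nj z := Nat.mul_le_mul_left _ ih
      _ ≤ _ := h1

theorem Nj_le_pow {y z : ℕ} (h : y ≤ z) : Nj z ≤ 1000037 ^ (z - y) * Nj y := by
  induction z, h using Nat.le_induction with
  | base => simp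
  | succ z hz ih =>
    have h1 := Nj_succ_le z
    have e : z + 1 - y = (z - y) + 1 := by omega
    rw [e, pow_succ]
    calc Nj (z + 1) ≤ 1000037 * Nj z := h1
      _ ≤ 1000037 * (1000037 ^ (z - y) * Nj y) := Nat.mul_le_mul_left _ ih
      _ = _ := by ring

theorem le_of_Nj_lt_two_mul {y z : ℕ} (h : Nj y < 2 * Nj z) : y ≤ z := by
  by_contra hc
  push Not at hc
  have h1 := Nj_succ_ge z
  have h2 : Nj (z + 1) ≤ Nj y := Nj_mono hc
  have h3 := Nj_pos z
  omega

end Pool.Agent.Helper66.T4
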