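import Pool.Agent.Helper66.T4.Sum

/-! # T4', block Z: the number of representations in the union of the states (end) -/

set_option autoImplicit false

namespace Pool.Agent.Helper66.T4

open Finset Pool.Agent.Helper5.ET Pool.Agent.Helper44.T4 Real

open Classical in
/-- the pairs with larger element in the state `s` -/
noncomputable def Qs (s0 S : ℕ) (w : Key → ℕ) (n s : ℕ) : Finset (ℕ × ℕ) :=
  (antidiagonal n).filter (fun q => q.1 ∈ AA s w ∧ q.2 ≤ q.1 ∧ q.2 ∈ AS s0 S w)

theorem card_Qs_le (h : SF) (hAR : ∀ s w a, a ∈ AA s w → Nj (sk s) ≤ a ∧ a < Nj (sk (s + 1)))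
    (C c0 θ η : ℝ) (hC : 0 ≤ C) (hη : 0 < η) :
    ∃ (s1 : ℕ) (C1 : ℝ), 0 ≤ C1 ∧ ∀ s0 S w, Good s0 S C c0 θ η w → ∀ s, s1 ≤ s → s0 ≤ s → s < S →
      ∀ n, ((Qs s0 S w n s).card : ℝ) ≤ C1 * √(sl s : ℝ) := by
  classical
  obtain ⟨s1, C1, hC1, hsum⟩ := sum_states h C c0 θ η hC
  obtain ⟨y1, hy1⟩ := gap_eps h (η / 5) (by positivity)
  refine ⟨max s1 (2 * y1), C1 + C, by positivity, ?_⟩
  intro s0 S w hG s hs1 hs0 hsS n
  have hs1' : s1 ≤ s := le_trans (le_max_left _ _) hs1
  have hs1'' : 2 * y1 ≤ s := le_trans (le_max_right _ _) hs1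
  have hc : s / 2 ≤ sl s := h.mono.le_apply
  have hsly : y1 ≤ sl s := by omega
  have hg := hy1 _ hsly
  have hsl1 : 1 ≤ sl s := by
    have h5 : tau 0 ≤ tau (s / 2) := h.mono.monotone (Nat.zero_le _)
    have h6 : tau 0 = 2 ^ 64 := rfl
    unfold sl
    omega
  have hsq1 : 1 ≤ √(sl s : ℝ) := by
    rw [Real.one_le_sqrt]; exact_mod_cast hsl1
  set F := (range (s + 1)).filter (fun s' => s0 ≤ s' ∧ θ * sl s ≤ sl s') with hF
  set j : ℕ := ⌊(θ + η) * sl s⌋₊ with hj
  set y : ℕ := n + 1 - Nj j with hy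
  set T : Finset (ℕ × ℕ) := (antidiagonal n).filter
    (fun q => q.1 ∈ AA s w ∧ y ≤ q.1 ∧ q.1 < y + Nj j) with hT
  -- the covering
  have hcov : Qs s0 S w n s ⊆ F.biUnion
      (fun s' => (AA s w ×ˢ AA s' w).filter (fun q => q.1 + q.2 = n)) ∪
        (if 0 ≤ (θ + η) * sl s then T else ∅) := by
    intro q hq
    unfold Qs at hq
    rw [Finset.mem_filter, Finset.HasAntidiagonal.mem_antidiagonal] at hq
    obtain ⟨hn, ha, hle, s', hs0', hsS', ha'⟩ := hq
    have r1 := hAR s w _ ha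
    have r2 := hAR s' w _ ha'
    have hss' : s' ≤ s := by
      have h1 : Nj (sk s') < Nj (sk (s + 1)) := by omega
      have h2 := Nj_strictMono.lt_iff_lt.mp h1
      have h3 := (sk_strictMono h).lt_iff_lt.mp h2
      omega
    rw [Finset.mem_union]
    rcases le_or_gt (θ * sl s) (sl s') with h1 | h1
    · left
      rw [Finset.mem_biUnion]
      refine ⟨s', ?_, ?_⟩
      · rw [hF, Finset.mem_filter, Finset.mem_range]
        exact ⟨by omega, hs0', h1⟩
      · rw [Finset.mem_filter, Finset.mem_product]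
        exact ⟨⟨ha, ha'⟩, hn⟩
    · right
      have h2 : (sk (s' + 1) : ℝ) ≤ (θ + η) * sl s := by
        have h3 := sk_succ_le h s'
        have h4 : gap (sl s') ≤ gap (sl s) := gap_tau_mono h (show s' / 2 ≤ s / 2 by omega)
        have h5 : (sk (s' + 1) : ℝ) ≤ (sl s' : ℝ) + 5 * (gap (sl s) : ℝ) := by
          have : sk (s' + 1) ≤ sl s' + 5 * gap (sl s) := by omega
          exact_mod_cast this
        nlinarith
      have h0 : 0 ≤ (θ + η) * sl s := le_trans (Nat.cast_nonneg _) h2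
      rw [if_pos h0, hT, Finset.mem_filter, Finset.HasAntidiagonal.mem_antidiagonal]
      have h3 : sk (s' + 1) ≤ j := Nat.le_floor h2
      have h4 := Nj_mono h3
      refine ⟨hn, ha, ?_, ?_⟩ <;> omega
  -- the tiny part
  have hTc : (((if 0 ≤ (θ + η) * sl s then T else ∅ : Finset (ℕ × ℕ))).card : ℝ) ≤ C := by
    split_ifs with h0
    · have h1 := hG.tiny s hs0 hsS j (Nat.floor_le h0) y
      refine le_trans ?_ h1
      have h2 : T.card ≤ ((AA s w).filter (fun a => y ≤ a ∧ a < y + Nj j)).card := by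
        apply Finset.card_le_card_of_injOn (fun q => q.1)
        · intro q hq
          rw [hT, Finset.mem_coe, Finset.mem_filter] at hq
          rw [Finset.mem_coe, Finset.mem_filter]
          exact ⟨hq.2.1, hq.2.2⟩
        · intro q hq r hr hqr
          rw [hT, Finset.mem_coe, Finset.mem_filter, Finset.HasAntidiagonal.mem_antidiagonal] at hq hr
          ext
          · exact hqr
          · have : q.1 = r.1 := hqr
            omega
      exact_mod_cast h2
    · simpa using hC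
  have hs2 := hsum s0 S w hG s hs1' hs0 hsS n
  calc ((Qs s0 S w n s).card : ℝ)
      ≤ ((F.biUnion (fun s' => (AA s w ×ˢ AA s' w).filter (fun q => q.1 + q.2 = n)) ∪
        (if 0 ≤ (θ + η) * sl s then T else ∅)).card : ℝ) := by
        exact_mod_cast Finset.card_le_card hcov
    _ ≤ ((∑ s' ∈ F, Rp s s' w n : ℕ) : ℝ) +
        ((if 0 ≤ (θ + η) * sl s then T else ∅ : Finset (ℕ × ℕ)).card : ℝ) := by
        have h1 := Finset.card_union_le (F.biUnion
          (fun s' => (AA s w ×ˢ AA s' w).filter (fun q => q.1 + q.2 = n)))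
          (if 0 ≤ (θ + η) * sl s then T else ∅)
        have h2 : (F.biUnion (fun s' => (AA s w ×ˢ AA s' w).filter
            (fun q => q.1 + q.2 = n))).card ≤ ∑ s' ∈ F, Rp s s' w n := Finset.card_biUnion_le
        exact_mod_cast le_trans h1 (Nat.add_le_add_right h2 _)
    _ ≤ C1 * √(sl s : ℝ) + C := by
        push_cast
        linarith
    _ ≤ (C1 + C) * √(sl s : ℝ) := by nlinarith

theorem sl_le_log (h : SF) {s n : ℕ} (hn : Nj (sk s) ≤ n) : (sl s : ℝ) ≤ 2 * Real.log n := by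
  have h1 : 2 ^ sl s ≤ n := le_trans (two_pow_le_Nj _) (le_trans (Nj_mono (sl_le_sk h s)) hn)
  have h2 : (2 : ℝ) ^ sl s ≤ n := by exact_mod_cast h1
  have h3 := Real.log_le_log (by positivity) h2
  rw [Real.log_pow] at h3
  have h4 := Real.log_two_gt_d9
  have h5 : (0 : ℝ) ≤ sl s := Nat.cast_nonneg _
  nlinarith

/-- the representation function of the union -/
theorem rep_bound (h : SF) (hAR : ∀ s w a, a ∈ AA s w → Nj (sk s) ≤ a ∧ a < Nj (sk (s + 1)))
    (C c0 θ η : ℝ) (hC : 0 ≤ C) (hη : 0 < η) :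
    ∃ (s1 : ℕ) (C' : ℝ), 0 ≤ C' ∧ ∀ s0 S w, s1 ≤ s0 → Good s0 S C c0 θ η w →
      ∀ n, (rep (AS s0 S w) n : ℝ) ≤ C' * √(Real.log n) := by
  classical
  obtain ⟨s1, C1, hC1, hQ⟩ := card_Qs_le h hAR C c0 θ η hC hη
  refine ⟨s1, 8 * C1, by positivity, ?_⟩
  intro s0 S w hs1 hG n
  set A := AS s0 S w with hA
  set P : Finset (ℕ × ℕ) := (antidiagonal n).filter (fun q => q.1 ∈ A ∧ q.2 ∈ A) with hP
  set σ : Finset ℕ := (range S).filter (fun s => s0 ≤ s ∧ Nj (sk s) ≤ n ∧
    n < 2 * Nj (sk (s + 1))) with hσ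
  set Q : Finset (ℕ × ℕ) := σ.biUnion (fun s => Qs s0 S w n s) with hQdef
  -- rep = card P
  have e1 : rep A n = P.card := by
    unfold rep
    rw [← Set.ncard_coe_finset]
    congr 1
    ext q
    rw [hP, Finset.mem_coe, Finset.mem_filter, Finset.HasAntidiagonal.mem_antidiagonal]
    constructor
    · rintro ⟨a, b, c⟩
      exact ⟨c, a, b⟩
    · rintro ⟨c, a, b⟩
      exact ⟨a, b, c⟩
  -- half of P is in Q
  have hhalf : ∀ q ∈ P, q.2 ≤ q.1 → q ∈ Q := by
    intro q hq hle
    rw [hP, Finset.mem_filter, Finset.HasAntidiagonal.mem_antidiagonal] at hq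
    obtain ⟨hn, ⟨s, hs0, hsS, ha⟩, hb⟩ := hq
    have r1 := hAR s w _ ha
    rw [hQdef, Finset.mem_biUnion]
    refine ⟨s, ?_, ?_⟩
    · rw [hσ, Finset.mem_filter, Finset.mem_range]
      refine ⟨hsS, hs0, ?_, ?_⟩ <;> omega
    · unfold Qs
      rw [Finset.mem_filter, Finset.HasAntidiagonal.mem_antidiagonal]
      exact ⟨hn, ha, hle, hb⟩
  have hPQ : P ⊆ Q ∪ Q.image Prod.swap := by
    intro q hq
    rw [Finset.mem_union]
    rcases le_total q.2 q.1 with hle | hle
    · exact Or.inl (hhalf q hq hle)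
    · right
      rw [Finset.mem_image]
      refine ⟨q.swap, hhalf _ ?_ hle, Prod.swap_swap q⟩
      rw [hP, Finset.mem_filter, Finset.HasAntidiagonal.mem_antidiagonal] at hq ⊢
      exact ⟨by rw [Prod.fst_swap, Prod.snd_swap]; omega, hq.2.2, hq.2.1⟩
  have hPc : P.card ≤ 2 * Q.card := by
    calc P.card ≤ (Q ∪ Q.image Prod.swap).card := Finset.card_le_card hPQ
      _ ≤ Q.card + (Q.image Prod.swap).card := Finset.card_union_le _ _
      _ ≤ Q.card + Q.card := Nat.add_le_add_left Finset.card_image_le _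
      _ = 2 * Q.card := by ring
  -- σ has at most two elements
  have hσc : σ.card ≤ 2 := by
    rcases σ.eq_empty_or_nonempty with he | hne
    · simp [he]
    · set m := σ.min' hne with hm
      have hmem := σ.min'_mem hne
      rw [← hm] at hmem
      rw [hσ, Finset.mem_filter] at hmem
      have hsub : σ ⊆ {m, m + 1} := by
        intro t ht
        have h1 := σ.min'_le t ht
        rw [← hm] at h1
        rw [hσ, Finset.mem_filter] at ht
        have h2 : Nj (sk t) < 2 * Nj (sk (m + 1)) := by omega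
        have h3 := le_of_Nj_lt_two_mul h2
        have h4 := (sk_strictMono h).le_iff_le.mp h3
        rw [Finset.mem_insert, Finset.mem_singleton]
        omega
      exact le_trans (Finset.card_le_card hsub) Finset.card_le_two
  -- the bound
  have hQc : (Q.card : ℝ) ≤ 2 * (C1 * (2 * √(Real.log n))) := by
    have h1 : (Q.card : ℝ) ≤ ∑ s ∈ σ, ((Qs s0 S w n s).card : ℝ) := by
      exact_mod_cast (Finset.card_biUnion_le (s := σ) (t := fun s => Qs s0 S w n s))
    have h2 : ∑ s ∈ σ, ((Qs s0 S w n s).card : ℝ) ≤ ∑ s ∈ σ, C1 * (2 * √(Real.log n)) := by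
      apply Finset.sum_le_sum
      intro s hs
      rw [hσ, Finset.mem_filter, Finset.mem_range] at hs
      have h3 := hQ s0 S w hG s (le_trans hs1 hs.2.1) hs.2.1 hs.1 n
      have h4 := sl_le_log h hs.2.2.1
      have h5 : √(sl s : ℝ) ≤ 2 * √(Real.log n) := by
        have h6 : √(sl s : ℝ) ≤ √(4 * Real.log n) := Real.sqrt_le_sqrt (by
          have : (0 : ℝ) ≤ sl s := Nat.cast_nonneg _
          linarith)
        have h7 : √(4 * Real.log n) = 2 * √(Real.log n) := by
          rw [Real.sqrt_mul (by norm_num)]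
          congr 1
          rw [show (4 : ℝ) = 2 ^ 2 by norm_num, Real.sqrt_sq (by norm_num)]
        rwa [h7] at h6
      exact le_trans h3 (mul_le_mul_of_nonneg_left h5 hC1)
    have h3 : ∑ s ∈ σ, C1 * (2 * √(Real.log n)) = (σ.card : ℝ) * (C1 * (2 * √(Real.log n))) := by
      rw [Finset.sum_const, nsmul_eq_mul]
    have h4 : (σ.card : ℝ) ≤ 2 := by exact_mod_cast hσc
    have h5 : 0 ≤ C1 * (2 * √(Real.log n)) := by positivity
    nlinarith
  rw [e1]
  have h6 : (P.card : ℝ) ≤ 2 * Q.card := by exact_mod_cast hPc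
  linarith

end Pool.Agent.Helper66.T4
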