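import Pool.Agent.Helper5.ET.Defs

/-! # T4', block Z: the good event for a horizon `S` -/

set_option autoImplicit false

namespace Pool.Agent.Helper66.T4

open Finset Pool.Agent.Helper5.ET

/-- All the estimates of the blocks N, M, F hold for all pairs of states `< S` from `s0` on. -/
structure Good (s0 S : ℕ) (C c0 θ η : ℝ) (w : Key → ℕ) : Prop where
  val : ∀ k, w k < Mk k
  near : ∀ s, s0 ≤ s → s < S → ∀ s', (s' = s ∨ s' + 1 = s) → ∀ n,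
    (Rp s s' w n : ℝ) ≤ C * ((sg s : ℝ) / Real.log (sg s))
  meso : ∀ s s', s0 ≤ s' → s' + 2 ≤ s → s < S → (sl s : ℝ) - sl s' ≤ c0 * sl s → ∀ n,
    (Rp s s' w n : ℝ) ≤ C * ((sl s : ℝ) / ((sl s : ℝ) - sl s'))
  macr : ∀ s s', s0 ≤ s' → s' ≤ s → s < S → c0 * sl s ≤ (sl s : ℝ) - sl s' →
    θ * sl s ≤ sl s' → ∀ n, (Rp s s' w n : ℝ) ≤ C
  tiny : ∀ s, s0 ≤ s → s < S → ∀ j : ℕ, (j : ℝ) ≤ (θ + η) * sl s → ∀ y,
    (((AA s w).filter (fun a => y ≤ a ∧ a < y + Nj j)).card : ℝ) ≤ C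

theorem Good.mono {s0 s1 S : ℕ} {C c0 θ η : ℝ} {w : Key → ℕ} (h : Good s0 S C c0 θ η w)
    (h01 : s0 ≤ s1) : Good s1 S C c0 θ η w :=
  ⟨h.val, fun s hs => h.near s (h01.trans hs), fun s s' hs => h.meso s s' (h01.trans hs),
    fun s s' hs => h.macr s s' (h01.trans hs), fun s hs => h.tiny s (h01.trans hs)⟩

/-- the union of the sets of the states `s0 ≤ s < S` -/
def AS (s0 S : ℕ) (w : Key → ℕ) : Set ℕ := {a | ∃ s, s0 ≤ s ∧ s < S ∧ a ∈ AA s w}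

end Pool.Agent.Helper66.T4
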