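import Pool.Agent.Helper66.T4.Nj

/-! # T4', block Z: sizes of the gaps and number of nodes -/

set_option autoImplicit false

namespace Pool.Agent.Helper66.T4

open Finset Pool.Agent.Helper5.ET Real

/-- the facts of block S which are used for the sums -/
structure SF : Prop where
  mono : StrictMono tau
  gapm : ∀ c, gap (tau c) ≤ gap (tau (c + 1)) ∧ gap (tau (c + 1)) ≤ 2 * gap (tau c)
  gsize : ∃ y0 : ℕ, ∀ y ≥ y0, 4 * (Nat.sqrt y * Nat.log 2 y) ≤ gap y ∧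
    gap y ≤ 8 * (Nat.sqrt y * Nat.log 2 y)

theorem tau_succ (c : ℕ) : tau (c + 1) = tau c + gap (tau c) := rfl

theorem natSqrt_bounds {y : ℕ} (hy : 16 ≤ y) :
    √(y : ℝ) / 2 ≤ (Nat.sqrt y : ℝ) ∧ (Nat.sqrt y : ℝ) ≤ √(y : ℝ) := by
  have h1 : (Nat.sqrt y : ℝ) ≤ √(y : ℝ) := by
    apply Real.le_sqrt_of_sq_le
    have := Nat.sqrt_le' y
    exact_mod_cast this
  refine ⟨?_, h1⟩
  have h2 : √(y : ℝ) ≤ (Nat.sqrt y : ℝ) + 1 := by
    rw [Real.sqrt_le_iff]
    constructor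
    · positivity
    · have := Nat.lt_succ_sqrt' y
      have h3 : y ≤ (Nat.sqrt y + 1) ^ 2 := this.le
      exact_mod_cast h3
  have h4 : (4 : ℕ) ≤ Nat.sqrt y := by
    rw [Nat.le_sqrt]
    omega
  have h5 : (4 : ℝ) ≤ (Nat.sqrt y : ℝ) := by exact_mod_cast h4
  linarith

theorem natLog_bounds {y : ℕ} (hy : 16 ≤ y) :
    Real.log y / (2 * Real.log 2) ≤ (Nat.log 2 y : ℝ) ∧
      (Nat.log 2 y : ℝ) ≤ Real.log y / Real.log 2 := by
  have hl2 : 0 < Real.log 2 := Real.log_pos (by norm_num)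
  have hy0 : (0 : ℝ) < y := by
    have : 0 < y := by omega
    exact_mod_cast this
  have h1 : (Nat.log 2 y : ℝ) ≤ Real.log y / Real.log 2 := by
    rw [le_div_iff₀ hl2, ← Real.log_pow]
    apply Real.log_le_log (by positivity)
    have := Nat.pow_log_le_self 2 (x := y) (by omega)
    exact_mod_cast this
  refine ⟨?_, h1⟩
  have h2 : Real.log y ≤ ((Nat.log 2 y : ℝ) + 1) * Real.log 2 := by
    have h3 := Nat.lt_pow_succ_log_self (b := 2) (by norm_num) y
    have h4 : (y : ℝ) ≤ 2 ^ (Nat.log 2 y + 1) := by exact_mod_cast h3.le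
    have h5 := Real.log_le_log hy0 h4
    rw [Real.log_pow] at h5
    push_cast at h5
    exact h5
  have h6 : (4 : ℕ) ≤ Nat.log 2 y := by
    have : 2 ^ 4 ≤ y := by omega
    exact (Nat.le_log_iff_pow_le (by norm_num) (by omega)).mpr this
  have h7 : (4 : ℝ) ≤ (Nat.log 2 y : ℝ) := by exact_mod_cast h6
  rw [div_le_iff₀ (by positivity)]
  nlinarith

/-- real form of the size of the gaps -/
theorem gap_real (h : SF) : ∃ y1 : ℕ, 16 ≤ y1 ∧ ∀ y ≥ y1,
    √(y : ℝ) * Real.log y ≤ gap y ∧ (gap y : ℝ) ≤ 12 * (√(y : ℝ) * Real.log y) := by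
  obtain ⟨y0, hy0⟩ := h.gsize
  refine ⟨max y0 16, le_max_right _ _, fun y hy => ?_⟩
  have hy1 : y0 ≤ y := le_trans (le_max_left _ _) hy
  have hy2 : 16 ≤ y := le_trans (le_max_right _ _) hy
  obtain ⟨a1, a2⟩ := hy0 y hy1
  obtain ⟨b1, b2⟩ := natSqrt_bounds hy2
  obtain ⟨c1, c2⟩ := natLog_bounds hy2
  have hl2 : 0 < Real.log 2 := Real.log_pos (by norm_num)
  have hl2' : Real.log 2 < 0.6931471808 := Real.log_two_lt_d9
  have hl2'' : 0.6931471803 < Real.log 2 := Real.log_two_gt_d9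
  have hy3 : (16 : ℝ) ≤ y := by exact_mod_cast hy2
  have hlog : 0 ≤ Real.log y := Real.log_nonneg (by linarith)
  have hs : 0 ≤ √(y : ℝ) := Real.sqrt_nonneg _
  have a1' : 4 * ((Nat.sqrt y : ℝ) * (Nat.log 2 y : ℝ)) ≤ gap y := by exact_mod_cast a1
  have a2' : (gap y : ℝ) ≤ 8 * ((Nat.sqrt y : ℝ) * (Nat.log 2 y : ℝ)) := by exact_mod_cast a2
  constructor
  · have h1 : (√(y : ℝ) / 2) * (Real.log y / (2 * Real.log 2)) ≤
        (Nat.sqrt y : ℝ) * (Nat.log 2 y : ℝ) :=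
      mul_le_mul b1 c1 (by positivity) (by positivity)
    have h2 : Real.log y ≤ Real.log y / Real.log 2 := by
      rw [le_div_iff₀ hl2]
      nlinarith
    have h3 : 4 * ((√(y : ℝ) / 2) * (Real.log y / (2 * Real.log 2))) =
        √(y : ℝ) * (Real.log y / Real.log 2) := by
      field_simp
      ring
    have h4 : √(y : ℝ) * Real.log y ≤ √(y : ℝ) * (Real.log y / Real.log 2) :=
      mul_le_mul_of_nonneg_left h2 hs
    linarith
  · have h1 : (Nat.sqrt y : ℝ) * (Nat.log 2 y : ℝ) ≤ √(y : ℝ) * (Real.log y / Real.log 2) :=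
      mul_le_mul b2 c2 (by positivity) hs
    have h2 : Real.log y / Real.log 2 ≤ 1.5 * Real.log y := by
      rw [div_le_iff₀ hl2]
      nlinarith
    have h3 : √(y : ℝ) * (Real.log y / Real.log 2) ≤ √(y : ℝ) * (1.5 * Real.log y) :=
      mul_le_mul_of_nonneg_left h2 hs
    nlinarith

/-- near pairs -/
theorem gap_near (h : SF) : ∃ y1 : ℕ, 16 ≤ y1 ∧ ∀ y ≥ y1,
    (gap y : ℝ) / Real.log (gap y) ≤ 24 * √(y : ℝ) := by
  obtain ⟨y1, h16, hy1⟩ := gap_real h
  refine ⟨y1, h16, fun y hy => ?_⟩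
  obtain ⟨a1, a2⟩ := hy1 y hy
  have hy2 : 16 ≤ y := le_trans h16 hy
  have hy3 : (16 : ℝ) ≤ y := by exact_mod_cast hy2
  have hlog1 : 1 ≤ Real.log y := by
    have h1 : Real.exp 1 ≤ y := by
      have := Real.exp_one_lt_d9
      linarith
    exact (Real.le_log_iff_exp_le (by linarith)).mpr h1
  have hs1 : 0 < √(y : ℝ) := Real.sqrt_pos.mpr (by linarith)
  have h2 : √(y : ℝ) ≤ gap y := by nlinarith
  have h3 : Real.log y / 2 ≤ Real.log (gap y) := by
    have := Real.log_le_log hs1 h2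
    rwa [Real.log_sqrt (by linarith)] at this
  rw [div_le_iff₀ (by linarith)]
  nlinarith

/-- the gaps are small -/
theorem gap_eps (h : SF) (ε : ℝ) (hε : 0 < ε) : ∃ y1 : ℕ, ∀ y ≥ y1, (gap y : ℝ) ≤ ε * y := by
  obtain ⟨y1, h16, hy1⟩ := gap_real h
  have h1 := (isLittleO_log_rpow_atTop (r := 1 / 2) (by norm_num)).bound
    (show (0 : ℝ) < ε / 12 by positivity)
  obtain ⟨a, ha⟩ := Filter.eventually_atTop.mp h1
  refine ⟨max y1 ⌈a⌉₊, fun y hy => ?_⟩
  have hy2 : y1 ≤ y := le_trans (le_max_left _ _) hy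
  have hy3 : a ≤ y := le_trans (Nat.le_ceil a) (by exact_mod_cast le_trans (le_max_right _ _) hy)
  have h2 := ha y hy3
  have h4 : (0 : ℝ) ≤ y := Nat.cast_nonneg _
  rw [← Real.sqrt_eq_rpow, Real.norm_eq_abs, Real.norm_eq_abs, abs_of_nonneg (Real.sqrt_nonneg _)] at h2
  have h3 : Real.log y ≤ ε / 12 * √(y : ℝ) := le_trans (le_abs_self _) h2
  have h5 := (hy1 y hy2).2
  have h6 : √(y : ℝ) * √(y : ℝ) = y := Real.mul_self_sqrt h4
  have h7 : √(y : ℝ) * Real.log y ≤ √(y : ℝ) * (ε / 12 * √(y : ℝ)) :=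
    mul_le_mul_of_nonneg_left h3 (Real.sqrt_nonneg _)
  nlinarith

/-- number of nodes -/
theorem node_count (h : SF) : ∃ D : ℕ, ∀ c, c ≤ Nat.sqrt (tau c) + D := by
  obtain ⟨y0, hy0⟩ := h.gsize
  refine ⟨max y0 2, fun c => ?_⟩
  rcases le_total c (max y0 2) with hc | hc
  · omega
  · induction c, hc using Nat.le_induction with
    | base => omega
    | succ c hc ih =>
      have h1 : c ≤ tau c := h.mono.le_apply
      have h2 : y0 ≤ tau c := le_trans (le_trans (le_max_left _ _) hc) h1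
      have h3 : 2 ≤ tau c := le_trans (le_trans (le_max_right _ _) hc) h1
      obtain ⟨a1, _⟩ := hy0 _ h2
      have h4 : 1 ≤ Nat.log 2 (tau c) :=
        (Nat.le_log_iff_pow_le (by norm_num) (by omega)).mpr (by simpa using h3)
      have h5 : 1 ≤ Nat.sqrt (tau c) := by
        rw [Nat.le_sqrt]; omega
      have h6 : Nat.sqrt (tau c) + 1 ≤ Nat.sqrt (tau (c + 1)) := by
        rw [Nat.le_sqrt, tau_succ]
        have h7 := Nat.sqrt_le (tau c)
        have h8 : Nat.sqrt (tau c) ≤ Nat.sqrt (tau c) * Nat.log 2 (tau c) :=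
          Nat.le_mul_of_pos_right _ h4
        nlinarith
      omega

theorem node_count_real (h : SF) : ∃ D : ℝ, 1 ≤ D ∧ ∀ s : ℕ, (s : ℝ) + 1 ≤ D * √(sl s : ℝ) := by
  obtain ⟨D, hD⟩ := node_count h
  refine ⟨2 * D + 4, by have : (0 : ℝ) ≤ D := Nat.cast_nonneg _; linarith, fun s => ?_⟩
  have h1 := hD (s / 2)
  have h2 : s ≤ 2 * (s / 2) + 1 := by omega
  have h3 : (Nat.sqrt (sl s) : ℝ) ≤ √(sl s : ℝ) := by
    apply Real.le_sqrt_of_sq_le
    exact_mod_cast Nat.sqrt_le' _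
  have h5 : 1 ≤ sl s := by
    have : tau 0 ≤ tau (s / 2) := h.mono.monotone (Nat.zero_le _)
    have h6 : tau 0 = 2 ^ 64 := rfl
    unfold sl
    omega
  have h4 : (1 : ℝ) ≤ √(sl s : ℝ) := by
    rw [Real.one_le_sqrt]
    exact_mod_cast h5
  have h7 : (s : ℝ) ≤ 2 * ((Nat.sqrt (sl s) : ℝ) + D) + 1 := by
    have : s ≤ 2 * (Nat.sqrt (sl s) + D) + 1 := by
      unfold sl
      omega
    exact_mod_cast this
  have h8 : (0 : ℝ) ≤ D := Nat.cast_nonneg _
  nlinarith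

end Pool.Agent.Helper66.T4
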