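import Pool.Agent.Helper66.T4.Size
import Pool.Agent.Helper66.T4.Good
import Pool.Agent.Helper44.T4.Limit

/-! # T4', block Z: the number of representations in the union of the states -/

set_option autoImplicit false

namespace Pool.Agent.Helper66.T4

open Finset Pool.Agent.Helper5.ET Real

theorem bb_ge (k : ℕ) : 2 ^ 64 ≤ bb k := by
  induction k with
  | zero => exact le_rfl
  | succ k ih => exact le_trans ih (Nat.le_add_right _ _)

theorem gap_ge_eight (y : ℕ) : 8 ≤ gap y := by
  unfold gap wof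
  have h1 := bb_ge (era y)
  have h2 : 1 ≤ Nat.sqrt (bb (era y)) := by rw [Nat.le_sqrt]; omega
  have h3 : 1 ≤ Nat.log 2 (bb (era y)) :=
    (Nat.le_log_iff_pow_le (by norm_num) (by omega)).mpr (by omega)
  have h4 : 1 ≤ Nat.sqrt (bb (era y)) * Nat.log 2 (bb (era y)) := Nat.mul_pos h2 h3
  omega

theorem sk_succ_lt (h : SF) (s : ℕ) : sk s < sk (s + 1) := by
  rcases Nat.even_or_odd' s with ⟨c, hc | hc⟩
  · subst hc
    have e1 : 2 * c / 2 = c := by omega
    have e2 : (2 * c + 1) / 2 = c := by omega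
    have e3 : 2 * c % 2 = 0 := by omega
    have e4 : (2 * c + 1) % 2 = 1 := by omega
    unfold sk
    rw [if_pos e3, if_neg (by omega), e1, e2]
    have h1 := h.gapm c
    have h2 := tau_succ (c + 1)
    have h3 := gap_ge_eight (tau c)
    have h4 : c + 1 + 1 = c + 2 := rfl
    rw [h4] at h2
    omega
  · subst hc
    have e1 : (2 * c + 1) / 2 = c := by omega
    have e2 : (2 * c + 1 + 1) / 2 = c + 1 := by omega
    unfold sk
    rw [if_neg (by omega), if_pos (by omega), e1, e2]
    have h3 := gap_ge_eight (tau (c + 1))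
    have h4 : c + 1 + 1 = c + 2 := rfl
    rw [h4]
    omega

theorem sk_strictMono (h : SF) : StrictMono sk := strictMono_nat_of_lt_succ (sk_succ_lt h)

theorem sl_mono (h : SF) {s t : ℕ} (hst : s ≤ t) : sl s ≤ sl t :=
  h.mono.monotone (Nat.div_le_div_right hst)

theorem sl_le_sk (h : SF) (s : ℕ) : sl s ≤ sk s := by
  unfold sl sk
  split_ifs with hs
  · have := h.mono.monotone (show s / 2 ≤ s / 2 + 1 by omega)
    omega
  · have := h.mono.monotone (show s / 2 ≤ s / 2 + 2 by omega)
    omega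

theorem sk_succ_le (h : SF) (s : ℕ) : sk (s + 1) ≤ sl s + 5 * gap (sl s) := by
  rcases Nat.even_or_odd' s with ⟨c, hc | hc⟩
  · subst hc
    have e1 : 2 * c / 2 = c := by omega
    have e2 : (2 * c + 1) / 2 = c := by omega
    unfold sk sl
    rw [if_neg (by omega), e1, e2]
    have h1 := h.gapm c
    have h2 := tau_succ (c + 1)
    have h5 := tau_succ c
    have h4 : c + 1 + 1 = c + 2 := rfl
    rw [h4] at h2
    omega
  · subst hc
    have e1 : (2 * c + 1) / 2 = c := by omega
    have e2 : (2 * c + 1 + 1) / 2 = c + 1 := by omega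
    unfold sk sl
    rw [if_pos (by omega), e1, e2]
    have h1 := h.gapm c
    have h2 := tau_succ (c + 1)
    have h5 := tau_succ c
    have h4 : c + 1 + 1 = c + 2 := rfl
    rw [h4] at h2 ⊢
    omega

theorem gap_tau_mono (h : SF) {c d : ℕ} (hcd : c ≤ d) : gap (tau c) ≤ gap (tau d) :=
  (monotone_nat_of_le_succ (f := fun c => gap (tau c)) (fun c => (h.gapm c).1)) hcd

theorem tau_dist (h : SF) {c d : ℕ} (hcd : c ≤ d) : tau c + (d - c) * gap (tau c) ≤ tau d := by
  induction d, hcd using Nat.le_induction with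
  | base => simp
  | succ d hd ih =>
    have h1 := gap_tau_mono h hd
    have e : d + 1 - c = (d - c) + 1 := by omega
    rw [e, tau_succ, add_mul, one_mul]
    omega

/-- the distance in the meso range -/
theorem meso_term (h : SF) : ∃ y1 : ℕ, ∀ s s' : ℕ, y1 ≤ sl s → s' + 2 ≤ s →
    (sl s : ℝ) ≤ 2 * sl s' →
    (sl s : ℝ) / ((sl s : ℝ) - sl s') ≤
      12 * √(sl s : ℝ) / Real.log (sl s) * (1 / ((s : ℝ) - s')) := by
  obtain ⟨y1, h16, hy1⟩ := gap_real h
  refine ⟨2 * y1, fun s s' hs hss' hhalf => ?_⟩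
  have hl : (32 : ℝ) ≤ sl s := by
    have : 32 ≤ sl s := by omega
    exact_mod_cast this
  have hl' : y1 ≤ sl s' := by
    have h1 : sl s ≤ 2 * sl s' := by exact_mod_cast hhalf
    omega
  obtain ⟨g1, _⟩ := hy1 _ hl'
  have hl'16 : (16 : ℝ) ≤ sl s' := by
    have : 16 ≤ sl s' := le_trans h16 hl'
    exact_mod_cast this
  -- sqrt and log
  have hs1 : √(sl s : ℝ) / 2 ≤ √(sl s' : ℝ) := by
    apply Real.le_sqrt_of_sq_le
    rw [div_pow, Real.sq_sqrt (by linarith)]
    linarith
  have hlog1 : Real.log (sl s) / 2 ≤ Real.log (sl s') := by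
    have h1 : √(sl s : ℝ) ≤ sl s' := by
      rw [Real.sqrt_le_iff]
      constructor
      · linarith
      · nlinarith
    have h2 := Real.log_le_log (Real.sqrt_pos.mpr (by linarith)) h1
    rwa [Real.log_sqrt (by linarith)] at h2
  have hlogpos : 0 < Real.log (sl s) := Real.log_pos (by linarith)
  have hsqrtpos : 0 < √(sl s : ℝ) := Real.sqrt_pos.mpr (by linarith)
  have hg : √(sl s : ℝ) * Real.log (sl s) / 4 ≤ gap (sl s') := by
    have h1 : (√(sl s : ℝ) / 2) * (Real.log (sl s) / 2) ≤ √(sl s' : ℝ) * Real.log (sl s') :=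
      mul_le_mul hs1 hlog1 (by positivity) (Real.sqrt_nonneg _)
    linarith
  -- distance
  have hd := tau_dist h (show s' / 2 ≤ s / 2 by omega)
  have hd' : (sl s' : ℝ) + ((s / 2 - s' / 2 : ℕ) : ℝ) * gap (sl s') ≤ sl s := by
    unfold sl
    exact_mod_cast hd
  have h3 : (s : ℝ) - s' ≤ 3 * ((s / 2 - s' / 2 : ℕ) : ℝ) := by
    have h4 : s ≤ s' + 3 * (s / 2 - s' / 2) := by omega
    have h5 : (s : ℝ) ≤ s' + 3 * ((s / 2 - s' / 2 : ℕ) : ℝ) := by exact_mod_cast h4
    linarith
  have h6 : (2 : ℝ) ≤ (s : ℝ) - s' := by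
    have : (s' : ℝ) + 2 ≤ s := by exact_mod_cast hss'
    linarith
  have h7 : ((s : ℝ) - s') * (√(sl s : ℝ) * Real.log (sl s)) / 12 ≤ (sl s : ℝ) - sl s' := by
    have h8 : ((s : ℝ) - s') / 3 * (√(sl s : ℝ) * Real.log (sl s) / 4) ≤
        ((s / 2 - s' / 2 : ℕ) : ℝ) * gap (sl s') :=
      mul_le_mul (by linarith) hg (by positivity) (by positivity)
    linarith
  have h9 : 0 < ((s : ℝ) - s') * (√(sl s : ℝ) * Real.log (sl s)) / 12 := by
    have : 0 < (s : ℝ) - s' := by linarith
    positivity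
  have h10 : (0 : ℝ) < (s : ℝ) - s' := by linarith
  calc (sl s : ℝ) / ((sl s : ℝ) - sl s')
      ≤ (sl s : ℝ) / (((s : ℝ) - s') * (√(sl s : ℝ) * Real.log (sl s)) / 12) :=
        div_le_div_of_nonneg_left (by linarith) h9 h7
    _ = 12 * √(sl s : ℝ) / Real.log (sl s) * (1 / ((s : ℝ) - s')) := by
        have e : (sl s : ℝ) = √(sl s : ℝ) * √(sl s : ℝ) :=
          (Real.mul_self_sqrt (by linarith)).symm
        rw [div_mul_div_comm, div_eq_div_iff (by positivity) (by positivity)]
        nth_rewrite 1 [e]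
        ring

theorem sum_inv (s : ℕ) (hs : 1 ≤ s) :
    ∑ s' ∈ range s, (1 / ((s : ℝ) - s')) ≤ 1 + Real.log s := by
  have h1 : ∑ s' ∈ range s, (1 / ((s : ℝ) - s')) = ∑ j ∈ range s, (1 / ((j : ℝ) + 1)) := by
    rw [← Finset.sum_range_reflect]
    apply Finset.sum_congr rfl
    intro j hj
    rw [Finset.mem_range] at hj
    have : ((s - 1 - j : ℕ) : ℝ) = (s : ℝ) - 1 - j := by
      rw [Nat.cast_sub (by omega), Nat.cast_sub (by omega)]
      simp
    rw [this]
    congr 1
    ring
  rw [h1]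
  have h2 := harmonic_le_one_add_log s
  have h3 : ((harmonic s : ℚ) : ℝ) = ∑ j ∈ range s, (1 / ((j : ℝ) + 1)) := by
    unfold harmonic
    push_cast
    apply Finset.sum_congr rfl
    intro j _
    rw [one_div]
  rw [← h3]
  exact h2

/-- the sum of the bounds over the states `s'` -/
theorem sum_states (h : SF) (C c0 θ η : ℝ) (hC : 0 ≤ C) :
    ∃ (s1 : ℕ) (C1 : ℝ), 0 ≤ C1 ∧ ∀ s0 S w, Good s0 S C c0 θ η w → ∀ s, s1 ≤ s → s0 ≤ s → s < S →
      ∀ n, ∑ s' ∈ (range (s + 1)).filter (fun s' => s0 ≤ s' ∧ θ * sl s ≤ sl s'),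
        (Rp s s' w n : ℝ) ≤ C1 * √(sl s : ℝ) := by
  classical
  obtain ⟨D, hD1, hD⟩ := node_count_real h
  obtain ⟨y2, hy2, hnear⟩ := gap_near h
  obtain ⟨y3, hmeso⟩ := meso_term h
  have hlogD : 0 ≤ Real.log D := Real.log_nonneg hD1
  refine ⟨2 * (y2 + y3 + 16), C * (48 + 12 * (2 + Real.log D) + 2 * D), by positivity, ?_⟩
  intro s0 S w hG s hs1 hs0 hsS n
  have hc : s / 2 ≤ sl s := h.mono.le_apply
  have hsl : y2 + y3 + 16 ≤ sl s := by omega
  have hl16 : (16 : ℝ) ≤ sl s := by
    have : 16 ≤ sl s := by omega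
    exact_mod_cast this
  have hlog1 : 1 ≤ Real.log (sl s) := by
    have h1 : Real.exp 1 ≤ (sl s : ℝ) := by
      have := Real.exp_one_lt_d9
      linarith
    exact (Real.le_log_iff_exp_le (by linarith)).mpr h1
  have hsq1 : 1 ≤ √(sl s : ℝ) := by
    rw [Real.one_le_sqrt]; linarith
  set X : ℝ := 12 * √(sl s : ℝ) / Real.log (sl s) with hX
  have hX0 : 0 ≤ X := by positivity
  -- the bound for one state
  have key : ∀ s' ∈ (range (s + 1)).filter (fun s' => s0 ≤ s' ∧ θ * sl s ≤ sl s'),
      (Rp s s' w n : ℝ) ≤ (if s' + 2 ≤ s then C * (X * (1 / ((s : ℝ) - s'))) + 2 * C else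
        C * (24 * √(sl s : ℝ))) := by
    intro s' hs'
    rw [Finset.mem_filter, Finset.mem_range] at hs'
    obtain ⟨h1, h2, h3⟩ := hs'
    split_ifs with h4
    · have hpos : (0 : ℝ) < (s : ℝ) - s' := by
        have : (s' : ℝ) + 2 ≤ s := by exact_mod_cast h4
        linarith
      rcases le_total ((sl s : ℝ) - sl s') (c0 * sl s) with h5 | h5
      · have h6 := hG.meso s s' h2 h4 hsS h5 n
        rcases le_total (sl s : ℝ) (2 * sl s') with h7 | h7
        · have h8 := hmeso s s' (by omega) h4 h7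
          have h9 := mul_le_mul_of_nonneg_left h8 hC
          linarith
        · have h8 : (sl s : ℝ) / ((sl s : ℝ) - sl s') ≤ 2 := by
            rw [div_le_iff₀ (by linarith)]
            linarith
          have h9 := mul_le_mul_of_nonneg_left h8 hC
          have h10 : 0 ≤ C * (X * (1 / ((s : ℝ) - s'))) := by positivity
          linarith
      · have h6 := hG.macr s s' h2 (by omega) hsS h5 h3 n
        have h7 : 0 ≤ C * (X * (1 / ((s : ℝ) - s'))) := by positivity
        linarith
    · have h5 : s' = s ∨ s' + 1 = s := by omega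
      have h6 := hG.near s hs0 hsS s' h5 n
      have h7 : (sg s : ℝ) / Real.log (sg s) ≤ 24 * √(sl s : ℝ) := hnear (sl s) (by omega)
      have h8 := mul_le_mul_of_nonneg_left h7 hC
      linarith
  have hnn : ∀ s' ∈ range (s + 1), (0 : ℝ) ≤ (if s' + 2 ≤ s then
      C * (X * (1 / ((s : ℝ) - s'))) + 2 * C else C * (24 * √(sl s : ℝ))) := by
    intro s' _
    split_ifs with h4
    · have hpos : (0 : ℝ) < (s : ℝ) - s' := by
        have : (s' : ℝ) + 2 ≤ s := by exact_mod_cast h4
        linarith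
      positivity
    · positivity
  have hs3 : 1 ≤ s - 1 := by omega
  calc ∑ s' ∈ (range (s + 1)).filter (fun s' => s0 ≤ s' ∧ θ * sl s ≤ sl s'), (Rp s s' w n : ℝ)
      ≤ ∑ s' ∈ (range (s + 1)).filter (fun s' => s0 ≤ s' ∧ θ * sl s ≤ sl s'),
          (if s' + 2 ≤ s then C * (X * (1 / ((s : ℝ) - s'))) + 2 * C else
            C * (24 * √(sl s : ℝ))) := Finset.sum_le_sum key
    _ ≤ ∑ s' ∈ range (s + 1), (if s' + 2 ≤ s then C * (X * (1 / ((s : ℝ) - s'))) + 2 * C else
            C * (24 * √(sl s : ℝ))) :=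
        Finset.sum_le_sum_of_subset_of_nonneg (Finset.filter_subset _ _)
          (fun i hi _ => hnn i hi)
    _ = ∑ s' ∈ range (s - 1), (C * (X * (1 / ((s : ℝ) - s'))) + 2 * C) +
          2 * (C * (24 * √(sl s : ℝ))) := by
        have e : s + 1 = (s - 1) + 1 + 1 := by omega
        rw [e, Finset.sum_range_succ, Finset.sum_range_succ]
        rw [if_neg (by omega), if_neg (by omega)]
        rw [Finset.sum_congr rfl (fun x hx => if_pos (by rw [Finset.mem_range] at hx; omega))]
        ring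
    _ ≤ ∑ s' ∈ range s, (C * (X * (1 / ((s : ℝ) - s'))) + 2 * C) +
          2 * (C * (24 * √(sl s : ℝ))) := by
        apply add_le_add_left
        apply Finset.sum_le_sum_of_subset_of_nonneg
        · apply Finset.range_subset_range.mpr; omega
        · intro i hi _
          rw [Finset.mem_range] at hi
          have hpos : (0 : ℝ) < (s : ℝ) - i := by
            have : (i : ℝ) < s := by exact_mod_cast hi
            linarith
          positivity
    _ = C * X * (∑ s' ∈ range s, (1 / ((s : ℝ) - s'))) + 2 * C * s +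
          48 * C * √(sl s : ℝ) := by
        rw [Finset.sum_add_distrib, Finset.mul_sum, Finset.sum_const, Finset.card_range,
          nsmul_eq_mul]
        have : ∀ x : ℝ, C * (X * x) = C * X * x := fun x => by ring
        simp only [this]
        ring
    _ ≤ C * X * (1 + Real.log s) + 2 * C * (D * √(sl s : ℝ)) + 48 * C * √(sl s : ℝ) := by
        have h1 := sum_inv s (by omega)
        have h2 : (s : ℝ) ≤ D * √(sl s : ℝ) := by have := hD s; linarith
        have h3 := mul_le_mul_of_nonneg_left h1 (mul_nonneg hC hX0)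
        have h4 := mul_le_mul_of_nonneg_left h2 hC
        linarith
    _ ≤ C * (12 * (2 + Real.log D) * √(sl s : ℝ)) + 2 * C * (D * √(sl s : ℝ)) +
          48 * C * √(sl s : ℝ) := by
        have h1 : Real.log s ≤ Real.log D + Real.log (sl s) / 2 := by
          have h2 : (s : ℝ) ≤ D * √(sl s : ℝ) := by have := hD s; linarith
          have h3 : (0 : ℝ) < s := by
            have : 0 < s := by omega
            exact_mod_cast this
          have h4 := Real.log_le_log h3 h2
          rwa [Real.log_mul (by linarith) (by positivity), Real.log_sqrt (by linarith)] at h4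
        have h2 : X * (1 + Real.log s) ≤ 12 * (2 + Real.log D) * √(sl s : ℝ) := by
          rw [hX, div_mul_eq_mul_div, div_le_iff₀ (by linarith)]
          have h3 : 1 + Real.log s ≤ (2 + Real.log D) * Real.log (sl s) := by nlinarith
          have h4 := mul_le_mul_of_nonneg_left h3 (show 0 ≤ 12 * √(sl s : ℝ) by positivity)
          linarith
        have h3 := mul_le_mul_of_nonneg_left h2 hC
        linarith
    _ = C * (48 + 12 * (2 + Real.log D) + 2 * D) * √(sl s : ℝ) := by ring

end Pool.Agent.Helper66.T4
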